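import Pool.Agent.Helper23_Refl.StmtC1

/-!
# The kernel versions of the bounds
-/

namespace Pool.Agent.Refl.H86

open Pool.Agent.Refl

theorem fc_eq {α : Type} (n : ℕ) (f : ℕ → α) : K.fc n f = f n := by
  cases n <;> rfl

theorem rec_ble {α : Type} (a b : ℕ) (x y : α) :
    (Bool.rec y x (Nat.ble a b) : α) = if a ≤ b then x else y := by
  by_cases h : a ≤ b
  · rw [if_pos h, Nat.ble_eq_true_of_le h]
  · rw [if_neg h]
    have : Nat.ble a b = false := by
      cases hb : Nat.ble a b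
      · rfl
      · exact absurd (Nat.le_of_ble_eq_true hb) h
    rw [this]

theorem rec_blt {α : Type} (a b : ℕ) (x y : α) :
    (Bool.rec y x (Nat.blt a b) : α) = if a < b then x else y :=
  rec_ble (a + 1) b x y

theorem rec_beq {α : Type} (a b : ℕ) (x y : α) :
    (Bool.rec y x (Nat.beq a b) : α) = if a = b then x else y := by
  by_cases h : a = b
  · subst h
    rw [if_pos rfl, Nat.beq_refl]
  · rw [if_neg h]
    have : Nat.beq a b = false := by
      cases hb : Nat.beq a b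
      · rfl
      · exact absurd (Nat.eq_of_beq_eq_true hb) h
    rw [this]

theorem rec_ands {α : Type} (a b : Bool) (x y : α) :
    (Bool.rec y x (K.ands a b) : α) = (Bool.rec y (Bool.rec y x b : α) a : α) := by
  cases a <;> cases b <;> rfl

theorem S6_eq : K.S6 = SS := rfl
theorem S12_eq : K.S12 = SS * SS := by norm_num [K.S12, SS]
theorem succ_eq (a : ℕ) : Nat.succ a = a + 1 := rfl
theorem mul_eq (a b : ℕ) : Nat.mul a b = a * b := rfl
theorem add_eq (a b : ℕ) : Nat.add a b = a + b := rfl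
theorem sub_eq (a b : ℕ) : Nat.sub a b = a - b := rfl
theorem div_eq (a b : ℕ) : Nat.div a b = a / b := rfl

theorem minK_eq (a b : ℕ) : K.minK a b = min a b := by
  unfold K.minK
  rw [rec_ble]
  exact (min_def a b).symm

theorem maxK_eq (a b : ℕ) : K.maxK a b = max a b := by
  unfold K.maxK
  rw [rec_ble]
  exact (max_def a b).symm

theorem sqUK_eq (h : SqKStmt) (a : ℕ) : K.sqUK a = sqU a := by
  unfold K.sqUK sqU
  simp only [h _, S6_eq, succ_eq, mul_eq]

theorem gLK_eq (h : SqKStmt) (a : ℕ) : K.gLK a = gL a := by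
  unfold K.gLK gL
  simp only [h _, S12_eq, div_eq, mul_eq, mul_assoc]

theorem gUK_eq (h : SqKStmt) (a : ℕ) : K.gUK a = gU a := by
  unfold K.gUK gU
  simp only [h _, S12_eq, div_eq, mul_eq, mul_assoc, succ_eq]

theorem c4K_eq (a : ℕ) : K.c4K a = c4 a := by
  unfold K.c4K c4
  simp only [S6_eq, div_eq, mul_eq, sub_eq]

theorem muU_eq (a b : ℕ) : K.muU a b = mulU a b := by
  unfold K.muU mulU
  simp only [S6_eq, div_eq, mul_eq, succ_eq]

theorem diU_eq (a b : ℕ) : K.diU a b = divU a b := by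
  unfold K.diU divU
  simp only [S6_eq, div_eq, mul_eq, succ_eq]

theorem ysK_eq (h : SqKStmt) (c h2 l m : ℕ) : K.ysK c h2 l m = ysupU c h2 l m := by
  unfold K.ysK ysupU
  have e : ∀ n f, @K.fc ℕ n f = f n := fc_eq
  generalize @K.fc ℕ = F at e ⊢
  simp only [e]
  rw [S6_eq]
  generalize SS = S
  simp only [rec_ble, sqUK_eq h, muU_eq, diU_eq, add_eq, sub_eq, mul_eq]

theorem chK_eq (h : SqKStmt) (a b c : ℕ) : K.chK a b c = chL a b c := by
  unfold K.chK chL
  simp only [h _, S12_eq, add_eq, sub_eq, mul_eq, div_eq, succ_eq]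
  rw [mul_assoc (_ + _)]

theorem farK_eq (h : SqKStmt) (a b c d l m : ℕ) : K.farK a b c d l m = farBN a b c d l m := by
  unfold K.farK farBN
  have e : ∀ n f, @K.fc ℕ n f = f n := fc_eq
  generalize @K.fc ℕ = F at e ⊢
  simp only [e]
  rw [S12_eq, S6_eq]
  generalize SS = S
  simp only [rec_beq, minK_eq, ysK_eq h, sqUK_eq h, gLK_eq h, muU_eq, diU_eq, c4K_eq, h _,
    add_eq, sub_eq, mul_eq, div_eq, succ_eq]

theorem muIK_eq (h : SqKStmt) (a : ℕ) : K.muIK a = muI a := by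
  unfold K.muIK muI
  simp only [gLK_eq h, S6_eq, add_eq, sub_eq, mul_eq, div_eq, succ_eq]

theorem y2IIK_eq (h : SqKStmt) (a : ℕ) : K.y2IIK a = y2II a := by
  unfold K.y2IIK y2II
  simp only [gUK_eq h, S6_eq, add_eq, sub_eq, mul_eq, div_eq, succ_eq]

theorem if_and3 (P Q R : Prop) [Decidable P] [Decidable Q] [Decidable R] (x y : ℕ) :
    (if P then if Q then if R then x else y else y else y) = if P ∧ Q ∧ R then x else y := by
  by_cases hP : P
  · by_cases hQ : Q
    · by_cases hR : R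
      · rw [if_pos hP, if_pos hQ, if_pos hR, if_pos ⟨hP, hQ, hR⟩]
      · rw [if_pos hP, if_pos hQ, if_neg hR, if_neg (fun h => hR h.2.2)]
    · rw [if_pos hP, if_neg hQ, if_neg (fun h => hQ h.2.1)]
  · rw [if_neg hP, if_neg (fun h => hP h.1)]

theorem yAK_gen (A : Bool → Bool → Bool) (B C : ℕ → ℕ → Bool) (F : ℕ → (ℕ → ℕ) → ℕ)
    (h : SqKStmt)
    (hA : ∀ (a b : Bool) (x y : ℕ),
      (Bool.rec y x (A a b) : ℕ) = (Bool.rec y (Bool.rec y x b : ℕ) a : ℕ))
    (hB : ∀ (a b : ℕ) (x y : ℕ), (Bool.rec y x (B a b) : ℕ) = if a ≤ b then x else y)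
    (hC : ∀ (a b : ℕ) (x y : ℕ), (Bool.rec y x (C a b) : ℕ) = if a < b then x else y)
    (e : ∀ n f, F n f = f n) (T S N12 N13 N23 : ℕ) (hT : T = S * S) (hS : S = SS) :
    (F (K.sqK (Nat.mul (Nat.mul N12 N13) N23)) fun t =>
      F (Nat.mul 4 (Nat.sub 4 N12)) fun f =>
      F (Nat.add (K.sqUK (K.c4K N13)) (K.sqUK (Nat.succ (Nat.div (Nat.mul (Nat.add (Nat.add
        (Nat.mul 4 N23) (Nat.mul N12 N13)) (Nat.mul 4 t)) S) f)))) fun a =>
      F (Nat.add (K.sqUK (K.c4K N23)) (K.sqUK (Nat.succ (Nat.div (Nat.mul (Nat.add (Nat.add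
        (Nat.mul 4 N13) (Nat.mul N12 N23)) (Nat.mul 4 t)) S) f)))) fun b =>
      F (K.minK (K.muU a a) (K.muU b b)) fun v =>
      F (Nat.sub (Nat.div (Nat.add (Nat.mul a a) (Nat.mul b b)) S)
        (Nat.succ (Nat.div (Nat.mul (Nat.mul (Nat.mul 2 (K.gUK N12)) a) b) T))) fun d =>
      Bool.rec v (K.minK v (K.diU (K.muU (K.c4K N12) (K.muU (K.muU a a) (K.muU b b))) d))
        (A (B (Nat.mul (K.gUK N12) a) (Nat.mul b S))
          (A (B (Nat.mul (K.gUK N12) b) (Nat.mul a S)) (C 0 d)))) = yA N12 N13 N23 := by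
  unfold yA
  simp only [e]
  simp only [hA, hB, hC, minK_eq, sqUK_eq h, gUK_eq h, muU_eq, diU_eq,
    c4K_eq, h _, add_eq, sub_eq, mul_eq, div_eq, succ_eq, if_and3, hT, hS]

theorem yAK_eq (h : SqKStmt) (a b c : ℕ) : K.yAK a b c = yA a b c :=
  yAK_gen K.ands Nat.ble Nat.blt K.fc h rec_ands rec_ble rec_blt fc_eq K.S12 K.S6 a b c
    S12_eq S6_eq

theorem wAK_eq (h : SqKStmt) (a b c : ℕ) : K.wAK a b c = wA a b c := by
  unfold K.wAK wA
  simp only [h _, S6_eq, add_eq, sub_eq, mul_eq, div_eq, succ_eq]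

theorem knum (h : SqKStmt) : KNumStmt := by
  refine ⟨farK_eq h, ?_, muIK_eq h, ?_, ?_, ?_, ?_, ?_, ?_⟩
  · intro a
    unfold K.lamIK lamI
    simp only [gUK_eq h, S6_eq, add_eq, sub_eq, mul_eq, div_eq, succ_eq]
  · intro a b c
    unfold K.muIIK muII
    simp only [chK_eq h, S6_eq, add_eq, sub_eq, mul_eq, div_eq, succ_eq]
  · intro a b c
    unfold K.lamIIK lamII
    have e : ∀ n f, @K.fc ℕ n f = f n := fc_eq
    generalize @K.fc ℕ = F at e ⊢
    simp only [e]
    rw [S12_eq, S6_eq]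
    generalize SS = S
    simp only [maxK_eq, sqUK_eq h, gUK_eq h, chK_eq h, muU_eq, diU_eq, add_eq, sub_eq, mul_eq,
      div_eq]
  · intro a b c
    unfold K.lCK lC
    have e : ∀ n f, @K.fc ℕ n f = f n := fc_eq
    generalize @K.fc ℕ = F at e ⊢
    simp only [e]
    rw [S6_eq]
    generalize SS = S
    simp only [rec_blt, maxK_eq, gLK_eq h, muIK_eq h, add_eq, sub_eq, mul_eq, div_eq, succ_eq]
  · intro a
    unfold K.bIK bI
    have e : ∀ n f, @K.fc ℕ n f = f n := fc_eq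
    generalize @K.fc ℕ = F at e ⊢
    simp only [e]
    rw [S12_eq, S6_eq]
    generalize SS = S
    simp only [gUK_eq h, add_eq, mul_eq, div_eq]
  · intro a b
    unfold K.bIIK bII
    have e : ∀ n f, @K.fc ℕ n f = f n := fc_eq
    generalize @K.fc ℕ = F at e ⊢
    simp only [e]
    rw [S12_eq, S6_eq]
    generalize SS = S
    simp only [sqUK_eq h, gLK_eq h, y2IIK_eq h, muU_eq, c4K_eq, add_eq, sub_eq, mul_eq, div_eq]
  · intro a b c d e
    unfold K.bAK bA
    have e : ∀ n f, @K.fc ℕ n f = f n := fc_eq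
    generalize @K.fc ℕ = F at e ⊢
    simp only [e]
    rw [S12_eq]
    generalize SS = S
    simp only [sqUK_eq h, yAK_eq h, wAK_eq h, muU_eq, add_eq, mul_eq, div_eq]

end Pool.Agent.Refl.H86
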